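import Pool.Agent.H.MP_432bcd_lc.D

namespace Pool.Agent.Results.MP_432bcd_lc.Complete

open Pool.Agent.Lib.CX Pool.Agent.Lib.ER Pool.Agent.H.MP_432bcd_lc

theorem result : Red (fun a : Inp => IsClosed (sa a.1)) (fun f => ¬ETR f) ∧
    Red (fun f => ¬ETR f) fun a : Inp => IsClosed (sa a.1) := by
  obtain ⟨f, a, b⟩ := mem
  obtain ⟨g, c, d⟩ := hard
  exact ⟨⟨f, a, fun x => not_iff_comm.1 (b x) |>.symm⟩, g, c, fun x => (not_congr (d x)).trans not_not⟩

end Pool.Agent.Results.MP_432bcd_lc.Complete
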